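import Pool.Agent.helper93.TV.Spec1

/-!
# Row tv:X1
-/

set_option autoImplicit false

namespace Pool.Agent.helper93.TV

open BigOperators Finset Matrix

variable {I V : Type} [Fintype I] [DecidableEq I] [Fintype V] [DecidableEq V]

theorem X1_left {D : FD I V} {F : V → V → V → V → ℂ} (h : D.UF F) :
    Fm F * (Fm F)ᴴ = D.PL := by
  ext x y
  rw [Matrix.mul_apply, Fintype.sum_prod_type]
  simp only [Fm, Matrix.conjTranspose_apply, FD.PL]
  by_cases hx : D.t x.1 = D.s1 x.2
  · rw [h.conn.row x.1 x.2 y.1 y.2 hx (mem_univ _) (mem_univ _)]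
    by_cases hxy : x = y
    · rw [if_pos ⟨by rw [hxy], by rw [hxy]⟩, if_pos ⟨hxy, hx⟩]
    · rw [if_neg (fun hc => hxy (Prod.ext hc.1 hc.2)), if_neg (fun hc => hxy hc.1)]
  · rw [if_neg (fun hc => hx hc.2)]
    refine Finset.sum_eq_zero fun e' _ => Finset.sum_eq_zero fun l' _ => ?_
    have h0 : F x.1 x.2 e' l' = 0 := by
      by_contra hne
      exact hx (h.conn.supp _ _ _ _ hne).1.1
    rw [h0, zero_mul]

theorem X1_right {D : FD I V} {F F' : V → V → V → V → ℂ} (h : D.UF F) (h' : D.UF F') :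
    (Fm F' * (Fm F)ᴴ) * Fm F = Fm F' := by
  rw [Matrix.mul_assoc]
  ext x w
  rw [Matrix.mul_apply, Finset.sum_eq_single w]
  · by_cases hw : D.t w.1 = D.s2 w.2
    · have e : ((Fm F)ᴴ * Fm F) w w = 1 := by
        rw [Matrix.mul_apply, Fintype.sum_prod_type]
        simp only [Fm, Matrix.conjTranspose_apply]
        rw [h.conn.col w.1 w.2 w.1 w.2 hw (mem_univ _) (mem_univ _), if_pos ⟨rfl, rfl⟩]
      rw [e, mul_one]
    · have h0 : Fm F' x w = 0 := by
        by_contra hne
        exact hw (h'.conn.supp _ _ _ _ hne).1.2.1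
      rw [h0, zero_mul]
  · intro z _ hz
    have e : ((Fm F)ᴴ * Fm F) z w = 0 := by
      rw [Matrix.mul_apply, Fintype.sum_prod_type]
      simp only [Fm, Matrix.conjTranspose_apply]
      by_cases hz' : D.t z.1 = D.s2 z.2
      · rw [h.conn.col z.1 z.2 w.1 w.2 hz' (mem_univ _) (mem_univ _),
          if_neg (fun hc => hz (Prod.ext hc.1 hc.2))]
      · refine Finset.sum_eq_zero fun e' _ => Finset.sum_eq_zero fun l' _ => ?_
        have h0 : F e' l' z.1 z.2 = 0 := by
          by_contra hne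
          exact hz' (h.conn.supp _ _ _ _ hne).1.2.1
        rw [h0, star_zero, zero_mul]
    rw [e, mul_zero]
  · intro hc
    exact absurd (mem_univ _) hc

theorem X1 : X1_stmt := by
  intro I V _ _ _ _ D F F' h h'
  refine ⟨X1_left h, ?_, X1_right h h', ?_⟩
  · intro x y hxy
    rw [Matrix.mul_apply] at hxy
    obtain ⟨z, -, hz⟩ := Finset.exists_ne_zero_of_sum_ne_zero hxy
    have h1 : F' x.1 x.2 z.1 z.2 ≠ 0 := left_ne_zero_of_mul hz
    have h2 : F y.1 y.2 z.1 z.2 ≠ 0 := by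
      have := right_ne_zero_of_mul hz
      rw [Matrix.conjTranspose_apply] at this
      exact star_ne_zero.1 this
    obtain ⟨⟨a1, a2, a3, a4, a5, a6⟩, -⟩ := h'.conn.supp _ _ _ _ h1
    obtain ⟨⟨b1, b2, b3, b4, b5, b6⟩, -⟩ := h.conn.supp _ _ _ _ h2
    exact ⟨a1, b1, a3.trans b3.symm, a4.trans b4.symm, a5.trans b5.symm, a6.trans b6.symm⟩
  · rw [Matrix.conjTranspose_mul, Matrix.conjTranspose_conjTranspose, ← Matrix.mul_assoc,
      X1_right h h']
    exact X1_left h'

end Pool.Agent.helper93.TV
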